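import Mathlib

namespace Pool.Agent.Results.MP_6850eb_nt.Collision

theorem result : ¬ ∀ (a : ℤ), (a < -3 ∨ 2 < a) → ∀ s : ℕ → ℤ, s 1 = a →
    (∀ k, 1 ≤ k → s (2 * k) = 2 * s k + 2) → (∀ k, 1 ≤ k → s (2 * k + 1) = 3 * s k + 3) →
    ∀ m n : ℕ, 1 ≤ m → 1 ≤ n → s m = s n → m = n := by
  intro H
  let f : ℕ → ℤ := fun n => Nat.binaryRec 0
    (fun b k r => if k = 0 then 3 else if b then 3 * r + 3 else 2 * r + 2) n
  have h0 : ∀ k, 1 ≤ k → f (2 * k) = 2 * f k + 2 := by
    intro k hk
    have : 2 * k = Nat.bit false k := by simp [Nat.bit]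
    simp only [f]
    rw [this, Nat.binaryRec_eq _ _ (Or.inr (by omega))]
    simp [show k ≠ 0 by omega]
  have h1 : ∀ k, 1 ≤ k → f (2 * k + 1) = 3 * f k + 3 := by
    intro k hk
    have : 2 * k + 1 = Nat.bit true k := by simp [Nat.bit]
    simp only [f]
    rw [this, Nat.binaryRec_eq _ _ (Or.inr (by omega))]
    simp [show k ≠ 0 by omega]
  have h2 : f 1 = 3 := by
    have : 1 = Nat.bit true 0 := by simp [Nat.bit]
    simp only [f]
    rw [this, Nat.binaryRec_eq _ _ (Or.inr (by simp))]
    simp
  have key : f 2043 = f 21504 := by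
    have a1 := h1 1 (by norm_num)
    have a2 := h1 3 (by norm_num)
    have a3 := h1 7 (by norm_num)
    have a4 := h1 15 (by norm_num)
    have a5 := h1 31 (by norm_num)
    have a6 := h1 63 (by norm_num)
    have a7 := h1 127 (by norm_num)
    have a8 := h0 255 (by norm_num)
    have a9 := h1 510 (by norm_num)
    have a10 := h1 1021 (by norm_num)
    have b1 := h0 1 (by norm_num)
    have b2 := h1 2 (by norm_num)
    have b3 := h0 5 (by norm_num)
    have b4 := h1 10 (by norm_num)
    have b5 := h0 21 (by norm_num)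
    have b6 := h0 42 (by norm_num)
    have b7 := h0 84 (by norm_num)
    have b8 := h0 168 (by norm_num)
    have b9 := h0 336 (by norm_num)
    have b10 := h0 672 (by norm_num)
    have b11 := h0 1344 (by norm_num)
    have b12 := h0 2688 (by norm_num)
    have b13 := h0 5376 (by norm_num)
    have b14 := h0 10752 (by norm_num)
    norm_num at *
    omega
  have := H 3 (by norm_num) f h2 h0 h1 2043 21504 (by norm_num) (by norm_num) key
  omega

end Pool.Agent.Results.MP_6850eb_nt.Collision
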